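import Pool.Agent.MP_cebb75_nt.N.Gen

/-!
The counting bound for a general choice of the parameters.
-/

set_option autoImplicit false

open Finset Filter

noncomputable section

namespace Pool.Agent.MP_cebb75_nt.N

open scoped Classical in
theorem core (J x : ℕ) (hJ : 100 ≤ J) (μ : ℝ) (hμ0 : 0 ≤ μ) (hμ : μ ≤ J / 2) (L : ℝ)
    (hL : 44 ≤ L)
    (hLE : L ≤ (2 * Real.exp 1 * μ / J) ^ J * Real.exp (-μ) / (110 * Real.sqrt J))
    (hx : 120000 * (L * (J ^ 2 * Real.exp μ)) ≤ Real.log x) (A : ℕ → Prop)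
    (hA : ∀ n k, A n → 1 ≤ k → k ≤ 2 ^ (J - 1) → k < n → (Nat.divisors (n - k)).card < 2 ^ J) :
    (((range (x + 1)).filter A).card : ℝ) ≤ x * Real.exp (-(L / 2)) := by
  have hJR : (100 : ℝ) ≤ J := by exact_mod_cast hJ
  set K := 2 ^ (J - 1) with hKd
  have hK : 2 * K = 2 ^ J := by rw [hKd, ← pow_succ']; congr 1; omega
  have hJK : J ≤ K := by
    have h3 : J - 1 < 2 ^ (J - 1) := Nat.lt_two_pow_self
    omega
  set E := Real.exp μ with hE
  have hE1 : 1 ≤ E := Real.one_le_exp hμ0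
  set z := ⌈Real.exp (115 * J * E)⌉₊ with hz
  have hz1 : Real.exp (115 * J * E) ≤ z := Nat.le_ceil _
  have hJE : 7 ≤ J * E := by nlinarith
  have hz2 : (4 * z : ℝ) ≤ Real.exp (116 * J * E) := by
    have h1 := Nat.ceil_lt_add_one (Real.exp_pos (115 * J * E)).le
    have h2 : 1 ≤ Real.exp (115 * J * E) := Real.one_le_exp (by positivity)
    have h3 : Real.exp (116 * J * E) = Real.exp (J * E) * Real.exp (115 * J * E) := by
      rw [← Real.exp_add]; congr 1; ring
    have h4 : 8 ≤ Real.exp (J * E) := by linarith [Real.add_one_le_exp (J * E)]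
    rw [h3]
    nlinarith
  have hz0 : 1 ≤ z := by
    have : (0 : ℝ) < z := (Real.exp_pos _).trans_le hz1
    exact_mod_cast this
  have hzR : (1 : ℝ) ≤ z := by exact_mod_cast hz0
  have hmu : μ + 1 ≤ ∑ p ∈ MP_fdd1d3_nt.PP (K ^ 2) z, 1 / (p : ℝ) := by
    have h1 := mertens_low (K ^ 2) z (by nlinarith)
    have h2 : 115 * J * E ≤ Real.log z := by
      rw [Real.le_log_iff_exp_le (by linarith)]; exact hz1
    have h3 : Real.log ((K ^ 2 : ℕ) : ℝ) ≤ 1.4 * J := by
      have h4 : ((J - 1 : ℕ) : ℝ) ≤ J := by exact_mod_cast Nat.sub_le J 1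
      rw [hKd]
      push_cast
      rw [Real.log_pow, Real.log_pow]
      push_cast
      nlinarith [Real.log_two_lt_d9, Real.log_two_gt_d9]
    rw [← Real.exp_le_exp, Real.exp_add, ← hE]
    set F := Real.exp (∑ p ∈ MP_fdd1d3_nt.PP (K ^ 2) z, 1 / (p : ℝ)) with hF
    have hF0 : 0 < F := Real.exp_pos _
    have h4 : J * (115 * E) ≤ J * (42 * F) := by nlinarith
    have h5 := le_of_mul_le_mul_left h4 (by linarith)
    nlinarith [Real.exp_one_lt_d9]
  obtain ⟨P, hPs, hP1, hP2⟩ := exists_sub _ (fun p => 1 / (p : ℝ)) (fun p hp => by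
    have := ((MP_fdd1d3_nt.mem_PP _ _ _).1 hp).2.one_le
    rw [div_le_one (by exact_mod_cast this)]
    exact_mod_cast this) _ (by positivity) hmu
  have hPm : ∀ p ∈ P, (K ^ 2 < p ∧ p ≤ z) ∧ p.Prime := fun p hp =>
    (MP_fdd1d3_nt.mem_PP _ _ _).1 (hPs hp)
  obtain ⟨K', hK', hest⟩ := model_est J K hJ hK P (fun p hp => (hPm p hp).1.1) μ hμ0 hμ hP1
    (by linarith) L hL hLE
  have hPc : P.card ≤ z := by
    have : P ⊆ Icc 1 z := fun p hp => mem_Icc.2 ⟨(hPm p hp).2.one_le, (hPm p hp).1.2⟩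
    simpa using card_le_card this
  have hc := count_le x K K' J (25 * J) ⌈8 * L + 16⌉₊ z (by omega) hK' A hA P
    (fun p hp => ⟨(hPm p hp).2, by have := (hPm p hp).1.1; nlinarith⟩) hPc hz0
  set X := Real.log x with hX
  have hJ2 : (100 : ℝ) * J ≤ J ^ 2 * E := by nlinarith
  have hX1 : 120000 * (L * (100 * J)) ≤ X := by
    refine le_trans ?_ hx
    gcongr
  have hXL : 100 * L ≤ X := by nlinarith
  have hXJ : 100 * J ≤ X := by nlinarith
  have hx0 : (0 : ℝ) < x := by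
    rcases Nat.eq_zero_or_pos x with h | h
    · rw [h] at hX
      simp at hX
      nlinarith
    · exact_mod_cast h
  have hxe : (x : ℝ) = Real.exp X := (Real.exp_log hx0).symm
  have hKe : (2 * K : ℝ) ≤ Real.exp J := by
    have h1 : (2 * K : ℝ) = 2 ^ J := by exact_mod_cast hK
    rw [h1, ← mul_one (J : ℝ), Real.exp_nat_mul]
    exact pow_le_pow_left₀ (by norm_num) (by linarith [Real.add_one_le_exp 1]) _
  have hlev : 9 * (K * (4 * z : ℝ) ^ (J + 25 * J)) ^ (2 * ⌈8 * L + 16⌉₊) ≤ Real.exp (X / 2) := by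
    have h1 : (K : ℝ) ≤ (4 * z : ℝ) ^ J := by
      have h2 : (2 * K : ℝ) = 2 ^ J := by exact_mod_cast hK
      have h3 : (2 : ℝ) ^ J ≤ (4 * z : ℝ) ^ J := pow_le_pow_left₀ (by norm_num) (by linarith) _
      have : (0 : ℝ) ≤ K := by positivity
      linarith
    have h2 : K * (4 * z : ℝ) ^ (J + 25 * J) ≤ Real.exp (3132 * J ^ 2 * E) := by
      calc K * (4 * z : ℝ) ^ (J + 25 * J) ≤ (4 * z : ℝ) ^ J * (4 * z : ℝ) ^ (J + 25 * J) := by gcongr
        _ = (4 * z : ℝ) ^ (27 * J) := by rw [← pow_add]; congr 1; ring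
        _ ≤ Real.exp (116 * J * E) ^ (27 * J) := pow_le_pow_left₀ (by positivity) hz2 _
        _ = _ := by rw [← Real.exp_nat_mul]; congr 1; push_cast; ring
    have h3 : (⌈8 * L + 16⌉₊ : ℝ) ≤ 9 * L := by
      linarith [Nat.ceil_lt_add_one (show 0 ≤ 8 * L + 16 by linarith)]
    have h5 : (9 : ℝ) ≤ Real.exp 8 := by linarith [Real.add_one_le_exp 8]
    refine (mul_le_mul h5 (pow_le_pow_left₀ (by positivity) h2 _) (by positivity)
      (by positivity)).trans ?_
    rw [← Real.exp_nat_mul, ← Real.exp_add, Real.exp_le_exp]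
    push_cast
    have h6 := mul_le_mul_of_nonneg_right h3 (show 0 ≤ J ^ 2 * E by positivity)
    have h7 : 44 * (100 * 100) ≤ L * (J ^ 2 * E) := by
      refine mul_le_mul hL (by linarith) (by norm_num) (by linarith)
    nlinarith
  have hsm : (K + 2 : ℝ) ≤ Real.exp (X / 2) := by
    have h1 : (J : ℝ) ≤ K := by exact_mod_cast hJK
    refine le_trans (by linarith) (hKe.trans (Real.exp_le_exp.2 ?_))
    linarith
  have hfin : 4 * Real.exp (X / 2) ≤ x * Real.exp (-(L / 2)) := by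
    have h1 : x * Real.exp (-(L / 2)) = Real.exp (X / 2 - L / 2) * Real.exp (X / 2) := by
      rw [hxe, ← Real.exp_add, ← Real.exp_add]; congr 1; ring
    rw [h1]
    refine mul_le_mul_of_nonneg_right ?_ (Real.exp_pos _).le
    linarith [Real.add_one_le_exp (X / 2 - L / 2)]
  have hcard : (((range (x + 1)).filter A).card : ℝ) ≤ ((range x).filter A).card + 1 := by
    rw [range_add_one, filter_insert]
    split_ifs
    · exact_mod_cast card_insert_le _ _
    · linarith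
  have h1 := mul_le_mul_of_nonneg_left hest hx0.le
  linarith

theorem ncard_eq (x : ℕ) (A : ℕ → Prop) [DecidablePred A] :
    {n : ℕ | n ≤ x ∧ A n}.ncard = ((range (x + 1)).filter A).card := by
  rw [← Set.ncard_coe_finset]
  congr 1
  ext n
  simp [Nat.lt_succ_iff]

theorem core' (J x : ℕ) (hJ : 100 ≤ J) (μ : ℝ) (hμ0 : 0 ≤ μ) (hμ : μ ≤ J / 2) (L : ℝ)
    (hL : 44 ≤ L)
    (hLE : L ≤ (2 * Real.exp 1 * μ / J) ^ J * Real.exp (-μ) / (110 * Real.sqrt J))
    (hx : 120000 * (L * (J ^ 2 * Real.exp μ)) ≤ Real.log x) (A : ℕ → Prop)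
    (hA : ∀ n k, A n → 1 ≤ k → k ≤ 2 ^ (J - 1) → k < n → (Nat.divisors (n - k)).card < 2 ^ J) :
    ({n : ℕ | n ≤ x ∧ A n}.ncard : ℝ) ≤ x * Real.exp (-(L / 2)) := by
  classical
  rw [ncard_eq]
  exact core J x hJ μ hμ0 hμ L hL hLE hx A hA

end Pool.Agent.MP_cebb75_nt.N
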