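import Pool.Agent.Mg.Fc7a479.G6d35dc

/-!
The sieve bound with a general slack and a general mean.
-/

set_option autoImplicit false

open Finset Filter

noncomputable section

namespace Pool.Agent.MP_cebb75_nt.N

theorem exp_four_le : Real.exp 4 ≤ 55 := by
  have h := Real.exp_one_lt_d9
  have h1 : Real.exp 4 = Real.exp 1 ^ 4 := by rw [← Real.exp_nat_mul]; norm_num
  rw [h1]
  exact (pow_le_pow_left₀ (Real.exp_pos _).le h.le 4).trans (by norm_num)

theorem exp_le_nine : Real.exp (17 / 8) ≤ 9 := by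
  have h := Real.exp_one_lt_d9
  have h1 : Real.exp (17 / 8) = Real.exp 1 ^ 2 * Real.exp (1 / 8) := by
    rw [← Real.exp_nat_mul, ← Real.exp_add]; norm_num
  have h2 : Real.exp (1 / 8) ≤ 8 / 7 := by
    have h3 := Real.add_one_le_exp (-(1 / 8))
    rw [Real.exp_neg, inv_eq_one_div, le_div_iff₀ (Real.exp_pos _)] at h3
    linarith
  have h4 : Real.exp 1 ^ 2 ≤ 7.5 :=
    (pow_le_pow_left₀ (Real.exp_pos _).le h.le 2).trans (by norm_num)
  rw [h1]
  nlinarith [Real.exp_pos (1 / 8), sq_nonneg (Real.exp 1)]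

theorem om_lt {n k J : ℕ} (P : Finset ℕ) (hP : ∀ p ∈ P, p.Prime)
    (h2 : k < n) (h3 : (Nat.divisors (n - k)).card < 2 ^ J) : om P k n < J := by
  rw [Nat.card_divisors (by omega)] at h3
  have h4 : 2 ^ (n - k).primeFactors.card ≤ ∏ p ∈ (n - k).primeFactors, ((n - k).factorization p + 1) :=
    pow_card_le_prod _ _ _ fun p hp => by
      have := (Nat.prime_of_mem_primeFactors hp).factorization_pos_of_dvd (n := n - k) (by omega)
        (Nat.dvd_of_mem_primeFactors hp)
      omega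
  have h5 : om P k n ≤ (n - k).primeFactors.card := by
    refine card_le_card fun p hp => ?_
    obtain ⟨h6, h7⟩ := mem_filter.1 hp
    refine Nat.mem_primeFactors.2 ⟨hP p h6, ?_, by omega⟩
    rw [← h7]
    exact Nat.dvd_sub_mod n
  have h6 : 2 ^ (n - k).primeFactors.card < 2 ^ J := by omega
  have := (Nat.pow_lt_pow_iff_right (by norm_num : 1 < 2)).1 h6
  omega

open scoped Classical in
theorem count_le (x K K' J t r z : ℕ) (hK : 1 ≤ K) (hK' : K' ≤ K) (A : ℕ → Prop)
    (hA : ∀ n k, A n → 1 ≤ k → k ≤ K → k < n → (Nat.divisors (n - k)).card < 2 ^ J)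
    (P : Finset ℕ) (hP : ∀ p ∈ P, p.Prime ∧ 2 * K ≤ p) (hz : P.card ≤ z) (hz1 : 1 ≤ z) :
    (((range x).filter A).card : ℝ) ≤ (K + 1) +
      x * (2 * EE (aa K) bb P (fun w => (1 - YY J t w) ^ 2) ^ K' +
        2 / 9 ^ r * EE (aa K) bb P (fun w => (1 + 3 * |YY J t w|) ^ 2) ^ K') +
      9 * (K * (4 * z : ℝ) ^ (J + t)) ^ (2 * r) := by
  set N := ∏ p ∈ P, p with hN
  have hN0 : 0 < N := prod_pos fun p hp => (hP p hp).1.pos
  set T := Icc 1 K' with hT
  have hTc : T.card = K' := by simp [hT]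
  have hlt : ∀ k ∈ T, ∀ p ∈ P, k < p := by
    intro k hk p hp
    have := (hP p hp).2
    have := mem_Icc.1 hk
    omega
  set Q : ℕ → ℝ := fun n => QQ T r fun k => YY J t (om P k n) with hQ
  have hzR : (1 : ℝ) ≤ z := by exact_mod_cast hz1
  have hM : Mult N x Q (3 * (K * (4 * z : ℝ) ^ (J + t)) ^ r) :=
    mult_QQ T r K hK (by omega) (fun k n => YY J t (om P k n)) _
      (one_le_pow₀ (by linarith)) fun k hk =>
      mult_YY P k J t z (fun p hp => ⟨hlt k hk p hp, dvd_prod_of_mem _ hp⟩) hz hz1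
  have h1 := (hM.mul hM).disc hN0
  have h2 : (((range x).filter A).card : ℝ) ≤ (K + 1) + ∑ n ∈ range x, (Q * Q) n := by
    have h3 : (range x).filter A ⊆ range (K + 1) ∪ (range x).filter fun n => A n ∧ K < n := by
      intro n hn
      rw [mem_union, mem_range, mem_filter]
      obtain ⟨h4, h5⟩ := mem_filter.1 hn
      by_cases h : K < n
      · exact Or.inr ⟨h4, h5, h⟩
      · left; omega
    have h4 : (((range x).filter A).card : ℝ) ≤
        (K + 1) + (((range x).filter fun n => A n ∧ K < n).card : ℝ) := by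
      have := (card_le_card h3).trans (card_union_le _ _)
      rw [card_range] at this
      exact_mod_cast this
    refine h4.trans (add_le_add le_rfl ?_)
    rw [card_filter]
    push_cast
    refine sum_le_sum fun n _ => ?_
    split_ifs with h
    · have : Q n = 1 := QQ_one _ _ _ fun k hk => by
        have := mem_Icc.1 hk
        exact YY_lt t (om_lt P (fun p hp => (hP p hp).1) (by omega)
          (hA n k h.1 this.1 (by omega) (by omega)))
      simp [this]
    · exact mul_self_nonneg _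
  have hb : ∀ f : ℕ → ℝ, (∀ w, 0 ≤ f w) →
      av N (fun n => ∏ k ∈ T, f (om P k n)) ≤ EE (aa K) bb P f ^ K' := by
    intro f hf
    have := prod_bound K T (by omega) P
      (fun p hp => ⟨(hP p hp).1, (hP p hp).2, fun k hk => mem_range.2 (hlt k hk p hp)⟩)
      (fun _ => f) fun _ => hf
    rwa [prod_const, hTc] at this
  have h3 : av N (Q * Q) ≤ 2 * EE (aa K) bb P (fun w => (1 - YY J t w) ^ 2) ^ K' +
      2 / 9 ^ r * EE (aa K) bb P (fun w => (1 + 3 * |YY J t w|) ^ 2) ^ K' := by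
    refine le_trans ?_ (add_le_add
      (mul_le_mul_of_nonneg_left (hb _ fun w => sq_nonneg _) (by norm_num))
      (mul_le_mul_of_nonneg_left (hb _ fun w => sq_nonneg _) (by positivity)))
    simp only [av]
    rw [mul_div_assoc', mul_div_assoc', ← add_div, mul_sum, mul_sum, ← sum_add_distrib]
    refine div_le_div_of_nonneg_right (sum_le_sum fun n _ => ?_) (by positivity)
    rw [Pi.mul_apply, ← sq]
    exact QQ_sq T r _
  have h4 := mul_le_mul_of_nonneg_left h3 (Nat.cast_nonneg (α := ℝ) x)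
  have h5 : 3 * (K * (4 * z : ℝ) ^ (J + t)) ^ r * (3 * (K * (4 * z : ℝ) ^ (J + t)) ^ r) =
      9 * (K * (4 * z : ℝ) ^ (J + t)) ^ (2 * r) := by ring
  linarith

/-- The model estimates for a suitable set of primes. -/
theorem model_est (J K : ℕ) (hJ : 100 ≤ J) (hK : 2 * K = 2 ^ J) (P : Finset ℕ)
    (hP : ∀ p ∈ P, K ^ 2 < p) (μ : ℝ) (hμ0 : 0 ≤ μ) (hμ : μ ≤ J / 2)
    (h1 : μ + 1 ≤ ∑ p ∈ P, 1 / (p : ℝ))
    (h2' : ∑ p ∈ P, 1 / (p : ℝ) ≤ μ + 2) (L : ℝ) (hL : 44 ≤ L)
    (hLE : L ≤ (2 * Real.exp 1 * μ / J) ^ J * Real.exp (-μ) / (110 * Real.sqrt J)) :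
    ∃ K' ≤ K, 2 * EE (aa K) bb P (fun w => (1 - YY J (25 * J) w) ^ 2) ^ K' +
        2 / 9 ^ ⌈8 * L + 16⌉₊ * EE (aa K) bb P (fun w => (1 + 3 * |YY J (25 * J) w|) ^ 2) ^ K' ≤
      Real.exp (-(L / 2)) / 2 := by
  have hJR : (100 : ℝ) ≤ J := by exact_mod_cast hJ
  have h2 : ∑ p ∈ P, 1 / (p : ℝ) ≤ J / 2 + 2 := by linarith
  have hJK : J ≤ K := by
    have h3 : J - 1 < 2 ^ (J - 1) := Nat.lt_two_pow_self
    have h4 : 2 ^ J = 2 * 2 ^ (J - 1) := by rw [← pow_succ']; congr 1; omega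
    omega
  have hKR : (J : ℝ) ≤ K := by exact_mod_cast hJK
  have hK2 : (2 : ℝ) * K = 2 ^ J := by exact_mod_cast hK
  have hK0 : (0 : ℝ) < K := by linarith
  have hsq : ∑ p ∈ P, (1 / (p : ℝ)) ^ 2 ≤ 1 / (K : ℝ) ^ 2 := by
    have h3 := MP_fdd1d3_nt.inv_sq_tail (K ^ 2) (P.sup id) (by nlinarith)
    push_cast at h3
    exact le_trans (sum_le_sum_of_subset_of_nonneg
      (fun p hp => mem_Ioc.2 ⟨hP p hp, le_sup (f := id) hp⟩) fun p _ _ => by positivity) h3
  have hKsq : (K : ℝ) * ∑ p ∈ P, (1 / (p : ℝ)) ^ 2 ≤ 1 / K := by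
    refine (mul_le_mul_of_nonneg_left hsq hK0.le).trans (le_of_eq ?_)
    field_simp
  have hKinv : 1 / (K : ℝ) ≤ 1 / 100 := one_div_le_one_div_of_le (by norm_num) (by linarith)
  have hKinv0 : 0 < 1 / (K : ℝ) := by positivity
  set π := EE (aa K) bb P (pt J) with hπ
  set τ := EE (aa K) bb P (tl (J + 25 * J)) with hτ
  set M := EE (aa K) bb P (fun w => 1 ^ w) with hM
  have ha : ∀ p ∈ P, 0 ≤ aa K p := fun p _ => aa_nonneg K p
  have hb : ∀ p ∈ P, 0 ≤ bb p := fun p _ => bb_nonneg p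
  have hMle : M ≤ 1 + 4 * (1 / K) := by
    have h3 := EE_pow_le (P := P) (K := K) 1 zero_le_one
    have h4 : Real.exp (2 * (1 / K)) ≤ 1 + 4 * (1 / K) := by
      have := Real.abs_exp_sub_one_le (x := 2 * (1 / K)) (by rw [abs_of_pos (by linarith)]; linarith)
      rw [abs_of_pos (show 0 < 2 * (1 / (K : ℝ)) by linarith)] at this
      linarith [le_abs_self (Real.exp (2 * (1 / K)) - 1)]
    refine h3.trans (le_trans (Real.exp_le_exp.2 ?_) h4)
    nlinarith
  have hπM : π ≤ M := EE_mono ha hb fun w => by unfold pt; split_ifs <;> simp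
  have hs0 : 0 < Real.sqrt J := Real.sqrt_pos.2 (by linarith)
  have hπlb : L ≤ K * π := by
    have h3 := esymm_lb P (fun p => 1 / (p : ℝ)) (1 / (K : ℝ) ^ 2) μ (by positivity)
      (fun p hp => ⟨by positivity, one_div_le_one_div_of_le (by positivity)
        (by exact_mod_cast (hP p hp).le)⟩) J hμ0 (by
          have : (J : ℝ) * (1 / (K : ℝ) ^ 2) ≤ 1 := by
            rw [mul_one_div, div_le_one (by positivity)]
            nlinarith
          linarith) J le_rfl
    set e := ∑ D ∈ powersetCard J P, ∏ p ∈ D, 1 / (p : ℝ) with he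
    have he0 : 0 ≤ e := sum_nonneg fun D _ => prod_nonneg fun p _ => by positivity
    have h4 := bb_lb (P := P) fun p hp => by have := hP p hp; nlinarith
    have h5 : Real.exp (-(μ + 3)) ≤ ∏ p ∈ P, bb p := by
      refine le_trans (Real.exp_le_exp.2 ?_) h4
      have : 1 / (K : ℝ) ^ 2 ≤ 1 / 2 := one_div_le_one_div_of_le (by norm_num) (by nlinarith)
      linarith
    have h6 : e * Real.exp (-(μ + 3)) ≤ π :=
      (mul_le_mul_of_nonneg_left h5 he0).trans (pt_lb J)
    have h7 := h3.trans (mul_le_mul_of_nonneg_right (fact_le J (by omega)) he0)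
    have hJ0 : (0 : ℝ) < J := by linarith
    have h8 : (2 * Real.exp 1 * μ / J) ^ J ≤ 2 * K * Real.exp 1 * Real.sqrt J * e := by
      have h9 : (2 * Real.exp 1 * μ / J) ^ J = 2 ^ J * (Real.exp 1 / J) ^ J * μ ^ J := by
        rw [← mul_pow, ← mul_pow]; congr 1; ring
      have h10 : (Real.exp 1 / J) ^ J * ((J : ℝ) / Real.exp 1) ^ J = 1 := by
        rw [← mul_pow, show Real.exp 1 / J * ((J : ℝ) / Real.exp 1) = 1 by field_simp, one_pow]
      rw [h9, ← hK2]
      calc 2 * K * (Real.exp 1 / J) ^ J * μ ^ J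
          ≤ 2 * K * (Real.exp 1 / J) ^ J *
            (Real.exp 1 * Real.sqrt J * ((J : ℝ) / Real.exp 1) ^ J * e) :=
            mul_le_mul_of_nonneg_left h7 (by positivity)
        _ = 2 * K * Real.exp 1 * Real.sqrt J * e *
            ((Real.exp 1 / J) ^ J * ((J : ℝ) / Real.exp 1) ^ J) := by ring
        _ = _ := by rw [h10, mul_one]
    refine hLE.trans ?_
    rw [div_le_iff₀ (by positivity)]
    have h9 : Real.exp (-μ) = Real.exp (-(μ + 3)) * Real.exp 3 := by
      rw [← Real.exp_add]; congr 1; ring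
    have h10 : Real.exp 1 * Real.exp 3 ≤ 55 := by
      rw [← Real.exp_add]; norm_num; exact exp_four_le
    calc (2 * Real.exp 1 * μ / J) ^ J * Real.exp (-μ)
        ≤ 2 * K * Real.exp 1 * Real.sqrt J * e * (Real.exp (-(μ + 3)) * Real.exp 3) := by
          rw [h9]; gcongr
      _ = 2 * K * Real.sqrt J * (e * Real.exp (-(μ + 3))) * (Real.exp 1 * Real.exp 3) := by
          ring
      _ ≤ 2 * K * Real.sqrt J * π * 55 := by
          have h11 : 0 ≤ π := le_trans (mul_nonneg he0 (Real.exp_pos _).le) h6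
          gcongr
      _ = _ := by ring
  have hπ0 : 0 < π := by
    by_contra h
    push Not at h
    nlinarith
  have hτle : 16 * τ ≤ π := by
    have h3 := (tl_le (P := P) (K := K) (J + 25 * J)).trans (div_le_div_of_nonneg_right
      (EE_pow_le (P := P) (K := K) 32 (by norm_num)) (by positivity))
    have h4 : Real.exp ((32 - 1) * ∑ p ∈ P, 1 / (p : ℝ) +
        2 * 32 * K * ∑ p ∈ P, (1 / (p : ℝ)) ^ 2) * 16 ≤ 2 ^ (25 * J) := by
      have h5 : (2 : ℝ) ^ (25 * J) = Real.exp ((25 * J : ℕ) * Real.log 2) := by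
        rw [Real.exp_nat_mul, Real.exp_log two_pos]
      have h6 : (16 : ℝ) ≤ Real.exp 15 := by linarith [Real.add_one_le_exp 15]
      refine (mul_le_mul_of_nonneg_left h6 (Real.exp_pos _).le).trans ?_
      rw [h5, ← Real.exp_add, Real.exp_le_exp]
      push_cast
      nlinarith [Real.log_two_gt_d9]
    rw [pow_add, le_div_iff₀ (by positivity), ← hK2] at h3
    have h5 : (0 : ℝ) < 2 ^ (25 * J) := by positivity
    have h6 : 16 * τ * (2 * K) * 2 ^ (25 * J) ≤ 1 * 2 ^ (25 * J) := by linarith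
    have h7 := le_of_mul_le_mul_right h6 h5
    have h8 : 16 * τ * (2 * K) ≤ π * (2 * K) := by linarith
    exact le_of_mul_le_mul_right h8 (by linarith)
  set K' := ⌈L / π⌉₊ with hK'
  have hK'K : K' ≤ K := Nat.ceil_le.2 (by rw [div_le_iff₀ hπ0]; exact hπlb)
  have hK'R : (K' : ℝ) ≤ K := by exact_mod_cast hK'K
  have hlo : L ≤ K' * π := by
    have := Nat.le_ceil (L / π)
    rwa [div_le_iff₀ hπ0] at this
  have hup : K' * π ≤ L + 2 := by
    have h3 := (Nat.ceil_lt_add_one (show 0 ≤ L / π by positivity)).le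
    have h4 := mul_le_mul_of_nonneg_right h3 hπ0.le
    rw [add_mul, div_mul_cancel₀ _ hπ0.ne'] at h4
    linarith
  have hK'inv : (K' : ℝ) * (1 / K) ≤ 1 := by
    rw [mul_one_div, div_le_one hK0]; exact hK'R
  refine ⟨K', hK'K, ?_⟩
  have hA1 : EE (aa K) bb P (fun w => (1 - YY J (25 * J) w) ^ 2) ^ K' ≤
      Real.exp (4 - 3 * L / 4) := by
    have h3 := first_le (P := P) (K := K) J (25 * J)
    have h4 : EE (aa K) bb P (fun w => (1 - YY J (25 * J) w) ^ 2) ≤
        Real.exp (4 * (1 / K) - 3 * π / 4) := by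
      linarith [Real.add_one_le_exp (4 * (1 / K) - 3 * π / 4)]
    refine (pow_le_pow_left₀ (EE_nonneg ha hb fun w => sq_nonneg _) h4 K').trans ?_
    rw [← Real.exp_nat_mul, Real.exp_le_exp]
    nlinarith
  have hA2 : EE (aa K) bb P (fun w => (1 + 3 * |YY J (25 * J) w|) ^ 2) ^ K' ≤
      Real.exp (36 + 16 * L) := by
    have h3 := second_le (P := P) (K := K) J (25 * J)
    have h4 : EE (aa K) bb P (fun w => (1 + 3 * |YY J (25 * J) w|) ^ 2) ≤
        Real.exp (4 * (1 / K) + 16 * π) := by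
      linarith [Real.add_one_le_exp (4 * (1 / K) + 16 * π)]
    refine (pow_le_pow_left₀ (EE_nonneg ha hb fun w => sq_nonneg _) h4 K').trans ?_
    rw [← Real.exp_nat_mul, Real.exp_le_exp]
    nlinarith
  have h9 : Real.exp (17 * L + 34) ≤ 9 ^ ⌈8 * L + 16⌉₊ := by
    refine le_trans ?_ (pow_le_pow_left₀ (Real.exp_pos _).le exp_le_nine _)
    rw [← Real.exp_nat_mul, Real.exp_le_exp]
    linarith [Nat.le_ceil (8 * L + 16)]
  have hA3 : 2 / 9 ^ ⌈8 * L + 16⌉₊ *
      EE (aa K) bb P (fun w => (1 + 3 * |YY J (25 * J) w|) ^ 2) ^ K' ≤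
      2 * Real.exp (4 - 3 * L / 4) := by
    calc _ ≤ 2 / Real.exp (17 * L + 34) * Real.exp (36 + 16 * L) :=
          mul_le_mul (div_le_div_of_nonneg_left (by norm_num) (Real.exp_pos _) h9) hA2
            (pow_nonneg (EE_nonneg ha hb fun w => sq_nonneg _) _) (by positivity)
      _ = 2 * Real.exp (36 + 16 * L - (17 * L + 34)) := by rw [Real.exp_sub]; ring
      _ ≤ _ := mul_le_mul_of_nonneg_left (Real.exp_le_exp.2 (by linarith)) (by norm_num)
  have h10 : 8 * Real.exp (4 - 3 * L / 4) ≤ Real.exp (-(L / 2)) := by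
    have h11 : Real.exp (-(L / 2)) = Real.exp (L / 4 - 4) * Real.exp (4 - 3 * L / 4) := by
      rw [← Real.exp_add]; congr 1; ring
    rw [h11]
    exact mul_le_mul_of_nonneg_right (by linarith [Real.add_one_le_exp (L / 4 - 4)])
      (Real.exp_pos _).le
  linarith

end Pool.Agent.MP_cebb75_nt.N
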