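import Mathlib

/-!
The root of the equation that gives the exponent.
-/

set_option autoImplicit false

noncomputable section

namespace Pool.Agent.MP_cebb75_nt.N

theorem g_eq (a : ℝ) (ha : 0 < a) :
    Real.log (2 * Real.exp 1 / a) = Real.log 2 + 1 - Real.log a := by
  rw [Real.log_div (by positivity) ha.ne', Real.log_mul (by norm_num) (by positivity),
    Real.log_exp]

theorem g_anti {a b : ℝ} (ha : 2 ≤ a) (hab : a < b) :
    b * Real.log (2 * Real.exp 1 / b) < a * Real.log (2 * Real.exp 1 / a) := by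
  have ha0 : 0 < a := by linarith
  have hb0 : 0 < b := by linarith
  rw [g_eq a ha0, g_eq b hb0]
  have h1 : Real.log (a / b) < a / b - 1 :=
    Real.log_lt_sub_one_of_pos (by positivity) (by rw [Ne, div_eq_one_iff_eq hb0.ne']; exact hab.ne)
  rw [Real.log_div ha0.ne' hb0.ne'] at h1
  have h2 := mul_lt_mul_of_pos_left h1 hb0
  have h3 : b * (a / b - 1) = a - b := by field_simp
  have h4 : Real.log 2 ≤ Real.log a := Real.log_le_log (by norm_num) ha
  nlinarith

theorem root : ∃ lam : ℝ, 4.31 < lam ∧ lam < 4.32 ∧ lam * Real.log (2 * Real.exp 1 / lam) = 1 := by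
  have hc : ContinuousOn (fun a : ℝ => a * Real.log (2 * Real.exp 1 / a)) (Set.Icc 4.31 4.32) := by
    refine continuousOn_id.mul (ContinuousOn.log (continuousOn_const.div continuousOn_id ?_) ?_)
    · intro a ha
      have : 0 < a := by linarith [ha.1]
      exact this.ne'
    · intro a ha
      have : 0 < a := by linarith [ha.1]
      positivity
  have h1 : 1 < (4.31 : ℝ) * Real.log (2 * Real.exp 1 / 4.31) := by
    rw [g_eq _ (by norm_num)]
    have h2 : Real.log 4.31 ≤ 2 * Real.log 2 + 0.0748 := by
      have h3 : Real.log 4.31 = 2 * Real.log 2 + Real.log 1.0775 := by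
        rw [show (4.31 : ℝ) = 2 ^ 2 * 1.0775 by norm_num, Real.log_mul (by norm_num) (by norm_num),
          Real.log_pow]
        norm_num
      have h4 : Real.log 1.0775 ≤ 0.0748 := by
        rw [Real.log_le_iff_le_exp (by norm_num)]
        exact le_trans (by norm_num) (Real.quadratic_le_exp_of_nonneg (by norm_num))
      linarith
    linarith [Real.log_two_lt_d9]
  have h2 : (4.32 : ℝ) * Real.log (2 * Real.exp 1 / 4.32) < 1 := by
    rw [g_eq _ (by norm_num)]
    have h3 : Real.log (2 ^ 2 * 1.0194 ^ 4) ≤ Real.log 4.32 :=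
      Real.log_le_log (by norm_num) (by norm_num)
    rw [Real.log_mul (by norm_num) (by norm_num), Real.log_pow, Real.log_pow] at h3
    have h4 := Real.one_sub_inv_le_log_of_pos (show (0 : ℝ) < 1.0194 by norm_num)
    norm_num at h3 h4 ⊢
    linarith [Real.log_two_gt_d9]
  obtain ⟨lam, h3, h4⟩ := intermediate_value_Ioo' (by norm_num) hc (show (1 : ℝ) ∈ _ from ⟨h2, h1⟩)
  exact ⟨lam, h3.1, h3.2, h4⟩

end Pool.Agent.MP_cebb75_nt.N
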