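import Pool.Agent.MP_cebb75_nt.N.Core

/-!
The bound with a slack that is a small power of the logarithm.
-/

set_option autoImplicit false

open Finset Filter

noncomputable section

namespace Pool.Agent.MP_cebb75_nt.N

theorem core_half (J x : ℕ) (hJ : 100 ≤ J)
    (hx : 3000 * (J * Real.sqrt J * Real.exp J) ≤ Real.log x) (A : ℕ → Prop)
    (hA : ∀ n k, A n → 1 ≤ k → k ≤ 2 ^ (J - 1) → k < n → (Nat.divisors (n - k)).card < 2 ^ J) :
    ({n : ℕ | n ≤ x ∧ A n}.ncard : ℝ) ≤
      x * Real.exp (-(Real.exp (J / 2) / (220 * Real.sqrt J))) := by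
  have hJR : (100 : ℝ) ≤ J := by exact_mod_cast hJ
  set E := Real.exp (J / 2) with hE
  set s := Real.sqrt J with hs
  have hs2 : s ^ 2 = J := Real.sq_sqrt (by positivity)
  have hs10 : 10 ≤ s := Real.le_sqrt_of_sq_le (by linarith)
  have hE2 : Real.exp J = E ^ 2 := by rw [hE, ← Real.exp_nat_mul]; congr 1; push_cast; ring
  have hEJ : 2600 * J ≤ E := by
    have h1 := Real.pow_div_factorial_le_exp (J / 2 : ℝ) (by positivity) 4
    have h2 : (100 : ℝ) ^ 3 ≤ (J : ℝ) ^ 3 := pow_le_pow_left₀ (by norm_num) hJR 3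
    norm_num [Nat.factorial] at h1 h2
    nlinarith
  have hL : 44 ≤ E / (110 * s) := by
    rw [le_div_iff₀ (by positivity)]
    nlinarith
  have hLL : E / (220 * s) = E / (110 * s) / 2 := by field_simp; ring
  rw [hLL]
  refine core' J x hJ (J / 2) (by positivity) le_rfl _ hL (le_of_eq ?_) ?_ A hA
  · congr 1
    rw [show 2 * Real.exp 1 * ((J : ℝ) / 2) / J = Real.exp 1 by field_simp, ← Real.exp_nat_mul,
      ← Real.exp_add, hE]
    congr 1
    ring
  · have h4 : E / (110 * s) * (J ^ 2 * E) = J * s * E ^ 2 / 110 := by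
      rw [← hs2]
      field_simp
    rw [← hE, h4]
    rw [hE2] at hx
    have : 0 ≤ J * s * E ^ 2 := by positivity
    linarith

theorem slack (b : ℝ) (x : ℕ) (hX0 : 0 < Real.log x)
    (hl : 1296 ≤ Real.log (Real.log x))
    (hl' : 17 ≤ (Real.log 2 - b) * Real.log (Real.log x) ^ (1 / 4 : ℝ)) :
    ({n : ℕ | n ≤ x ∧ ∀ k : ℕ, 1 ≤ k → k < n →
        ((n - k).divisors.card : ℝ) ≤ k + Real.log x ^ b}.ncard : ℝ) ≤
      x * Real.exp (-(1 / (220 * Real.exp 5) *
      Real.sqrt (Real.log x) / Real.log (Real.log x) ^ (5 / 4 : ℝ))) := by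
  set X := Real.log x with hX
  set l := Real.log X with hld
  have hXl : X = Real.exp l := (Real.exp_log hX0).symm
  set u := l ^ (1 / 4 : ℝ) with hu
  have hl0 : 0 < l := by linarith
  have hu0 : 0 < u := Real.rpow_pos_of_pos hl0 _
  have hu4 : u ^ 4 = l := by
    rw [hu, ← Real.rpow_natCast, ← Real.rpow_mul hl0.le]; norm_num
  have hu5 : l ^ (5 / 4 : ℝ) = u ^ 5 := by
    rw [hu, ← Real.rpow_natCast, ← Real.rpow_mul hl0.le]; norm_num
  have hu6 : 6 ≤ u := by
    by_contra h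
    push Not at h
    have := pow_lt_pow_left₀ h hu0.le (n := 4) (by norm_num)
    linarith
  have hlog : Real.log u ≤ u - 1 := Real.log_le_sub_one_of_pos hu0
  have hlog0 : 0 ≤ Real.log u := Real.log_nonneg (by linarith)
  have hu3 : 216 * u ≤ l := by
    have h1 : (6 : ℝ) ^ 3 ≤ u ^ 3 := pow_le_pow_left₀ (by norm_num) hu6 3
    nlinarith
  set a := l - 6 * Real.log u - 9 with ha
  have ha100 : 100 ≤ a := by linarith
  set J := ⌊a⌋₊ with hJ
  have hJ100 : 100 ≤ J := Nat.le_floor (by exact_mod_cast ha100)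
  have hJa : (J : ℝ) ≤ a := Nat.floor_le (by linarith)
  have haJ : a ≤ J + 1 := (Nat.lt_floor_add_one a).le
  have hJl : (J : ℝ) ≤ u ^ 4 := by linarith
  have hs : Real.sqrt J ≤ u ^ 2 := Real.sqrt_le_iff.2 ⟨by positivity, by linarith⟩
  have hJR : (100 : ℝ) ≤ J := by exact_mod_cast hJ100
  have hs0 : 0 < Real.sqrt J := Real.sqrt_pos.2 (by linarith)
  have hea : Real.exp a * (u ^ 6 * Real.exp 9) = X := by
    have h1 : u ^ 6 = Real.exp (6 * Real.log u) := by
      rw [show (6 : ℝ) = (6 : ℕ) by norm_num, Real.exp_nat_mul, Real.exp_log hu0]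
    rw [h1, ← Real.exp_add, ← Real.exp_add, hXl]
    congr 1
    rw [ha]
    ring
  have h9 : 3000 ≤ Real.exp 9 := by
    have h1 : Real.exp 9 = Real.exp 1 ^ 9 := by rw [← Real.exp_nat_mul]; norm_num
    rw [h1]
    exact le_trans (by norm_num) (pow_le_pow_left₀ (by norm_num) Real.exp_one_gt_d9.le 9)
  refine (core_half J x hJ100 ?_ _ ?_).trans (mul_le_mul_of_nonneg_left (Real.exp_le_exp.2 ?_)
    (Nat.cast_nonneg x))
  · rw [← hX, ← hea]
    calc 3000 * (J * Real.sqrt J * Real.exp J) ≤ Real.exp 9 * (u ^ 4 * u ^ 2 * Real.exp a) := by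
          gcongr
      _ = _ := by ring
  · intro n k hn h3 h4 h5
    have h6 := hn k h3 h5
    have h7 : X ^ b < 2 ^ (J - 1) := by
      have h8 : (2 : ℝ) ^ (J - 1) = Real.exp ((J - 1 : ℕ) * Real.log 2) := by
        rw [Real.exp_nat_mul, Real.exp_log two_pos]
      rw [Real.rpow_def_of_pos hX0, ← hld, h8, Real.exp_lt_exp, Nat.cast_sub (by omega)]
      push_cast
      have h11 : (l - 6 * u - 11) * Real.log 2 ≤ (J - 1) * Real.log 2 :=
        mul_le_mul_of_nonneg_right (by linarith) (by linarith [Real.log_two_gt_d9])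
      have h12 : 17 * u ^ 3 ≤ (Real.log 2 - b) * u * u ^ 3 :=
        mul_le_mul_of_nonneg_right hl' (by positivity)
      have h13 : (Real.log 2 - b) * u * u ^ 3 = (Real.log 2 - b) * l := by rw [← hu4]; ring
      have h14 : u ≤ u ^ 3 := by nlinarith [mul_le_mul hu6 hu6 (by norm_num) hu0.le]
      have h15 : (6 * u + 11) * Real.log 2 < 17 * u := by nlinarith [Real.log_two_lt_d9]
      nlinarith
    have h8 : (k : ℝ) ≤ 2 ^ (J - 1) := by exact_mod_cast h4
    have h9 : (2 : ℝ) ^ J = 2 * 2 ^ (J - 1) := by rw [← pow_succ']; congr 1; omega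
    have h10 : ((n - k).divisors.card : ℝ) < 2 ^ J := by linarith
    exact_mod_cast h10
  · rw [neg_le_neg_iff, hu5]
    have h1 : Real.sqrt X ≤ Real.exp (J / 2) * (u ^ 3 * Real.exp 5) := by
      refine Real.sqrt_le_iff.2 ⟨by positivity, ?_⟩
      have h2 : Real.exp a * Real.exp 9 ≤ (Real.exp (J / 2) * Real.exp 5) ^ 2 := by
        rw [← Real.exp_add, ← Real.exp_add, ← Real.exp_nat_mul, Real.exp_le_exp]
        push_cast
        linarith
      rw [← hea]
      nlinarith [mul_le_mul_of_nonneg_right h2 (show 0 ≤ u ^ 6 by positivity)]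
    calc 1 / (220 * Real.exp 5) * Real.sqrt X / u ^ 5
        ≤ 1 / (220 * Real.exp 5) * (Real.exp (J / 2) * (u ^ 3 * Real.exp 5)) / u ^ 5 := by gcongr
      _ = Real.exp (J / 2) / (220 * u ^ 2) := by field_simp
      _ ≤ _ := by gcongr

end Pool.Agent.MP_cebb75_nt.N
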