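import Pool.Agent.MP_fdd1d3_nt.Mertens
import Pool.Agent.MP_2a1f0e_nt.Div

/-!
Real moments of the divisor function, and the upper tail.
-/

set_option autoImplicit false

open Finset Filter
open scoped Pointwise

noncomputable section

namespace Pool.Agent.MP_cebb75_nt.N

open MP_fdd1d3_nt

theorem tau_mul_le (a b : ℕ) : (a * b).divisors.card ≤ a.divisors.card * b.divisors.card := by
  rw [Nat.divisors_mul]
  exact card_mul_le

theorem tau_sqf {q : ℕ} (hq : Squarefree q) : q.divisors.card = 2 ^ q.primeFactors.card := by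
  rw [Nat.card_divisors hq.ne_zero, ← prod_const]
  refine prod_congr rfl fun p hp => ?_
  rw [Nat.factorization_eq_one_of_squarefree hq (Nat.prime_of_mem_primeFactors hp)
    (Nat.dvd_of_mem_primeFactors hp)]

theorem prod_euler (x : ℕ) (hx : 2 ≤ x) (c : ℝ) (hc : 1 ≤ c) :
    ∑ D ∈ (PP 0 x).powerset, c ^ D.card / ((∏ p ∈ D, p : ℕ) : ℝ) ≤ (15 * Real.log x) ^ c := by
  have h1 := mertens_b x hx
  have h2 : ∑ s ∈ (PP 0 x).powerset, 1 / nn (fun p => p) s =
      ∏ p ∈ PP 0 x, (1 + 1 / (p : ℝ)) := by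
    rw [prod_one_add]
    refine sum_congr rfl fun s _ => ?_
    simp [nn]
  have h3 : ∑ D ∈ (PP 0 x).powerset, c ^ D.card / ((∏ p ∈ D, p : ℕ) : ℝ) =
      ∏ p ∈ PP 0 x, (1 + c * (1 / (p : ℝ))) := by
    rw [prod_one_add]
    refine sum_congr rfl fun s _ => ?_
    simp [prod_mul_distrib, div_eq_mul_inv]
  rw [h3]
  rw [h2] at h1
  calc _ ≤ ∏ p ∈ PP 0 x, (1 + 1 / (p : ℝ)) ^ c :=
        prod_le_prod (fun p _ => by positivity) fun p _ =>
          one_add_mul_self_le_rpow_one_add (le_trans (by norm_num) (by positivity : (0 : ℝ) ≤ 1 / p)) hc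
    _ = (∏ p ∈ PP 0 x, (1 + 1 / (p : ℝ))) ^ c :=
        Real.finsetProd_rpow _ _ (fun p _ => by positivity) c
    _ ≤ _ := Real.rpow_le_rpow (prod_nonneg fun p _ => by positivity) h1 (by linarith)

/-- the moment bound -/
theorem moment (s : ℝ) (hs : 1 ≤ s) : ∃ C : ℝ, 0 < C ∧ ∀ x : ℕ, 2 ≤ x →
    ∑ m ∈ Ioc 0 x, (m.divisors.card : ℝ) ^ s ≤ C * x * (15 * Real.log x) ^ ((2 : ℝ) ^ s - 1) := by
  have hs0 : 0 < s := by linarith
  obtain ⟨C, hC1, hC⟩ := MP_2a1f0e_nt.divisor_bound (ε := 1 / (4 * s)) (by positivity)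
  have hsum : Summable fun r : ℕ => (r : ℝ) ^ (-(3 / 2) : ℝ) :=
    Real.summable_nat_rpow.2 (by norm_num)
  set S := ∑' r : ℕ, (r : ℝ) ^ (-(3 / 2) : ℝ) with hS
  have hS0 : 0 ≤ S := tsum_nonneg fun r => by positivity
  set c := (2 : ℝ) ^ s - 1 with hc
  have hc1 : 1 ≤ c := by
    have := Real.rpow_le_rpow_of_exponent_le (x := 2) (by norm_num) hs
    rw [Real.rpow_one] at this
    linarith
  refine ⟨C ^ s * (S + 1), by positivity, fun x hx => ?_⟩
  have key : ∀ m ∈ Ioc 0 x, (m.divisors.card : ℝ) ^ s ≤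
      ∑ r ∈ Ioc 0 x, ∑ D ∈ (PP 0 x).powerset,
        if r ^ 2 * ∏ p ∈ D, p ∣ m then C ^ s * (r : ℝ) ^ (1 / 2 : ℝ) * c ^ D.card else 0 := by
    intro m hm
    obtain ⟨hm0, hmx⟩ := mem_Ioc.1 hm
    obtain ⟨q, r, hq0, hr0, hqr, hq⟩ := Nat.sq_mul_squarefree_of_pos hm0
    have hr : r ∈ Ioc 0 x := mem_Ioc.2 ⟨hr0, by nlinarith⟩
    refine le_trans ?_ (single_le_sum (f := fun r : ℕ => ∑ D ∈ (PP 0 x).powerset,
      if r ^ 2 * ∏ p ∈ D, p ∣ m then C ^ s * (r : ℝ) ^ (1 / 2 : ℝ) * c ^ D.card else 0)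
      (fun r _ => sum_nonneg fun D _ => by split_ifs <;> positivity) hr)
    have hsub : q.primeFactors.powerset ⊆ (PP 0 x).powerset := by
      refine powerset_mono.2 fun p hp => (mem_PP _ _ _).2 ?_
      have h1 := Nat.prime_of_mem_primeFactors hp
      have h2 := Nat.le_of_dvd hq0 (Nat.dvd_of_mem_primeFactors hp)
      have h3 : q ≤ m := by rw [← hqr]; exact Nat.le_mul_of_pos_left _ (by positivity)
      exact ⟨⟨h1.pos, by omega⟩, h1⟩
    refine le_trans ?_ (sum_le_sum_of_subset_of_nonneg hsub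
      fun D _ _ => by split_ifs <;> positivity)
    have h1 : ∑ D ∈ q.primeFactors.powerset,
        (if r ^ 2 * ∏ p ∈ D, p ∣ m then C ^ s * (r : ℝ) ^ (1 / 2 : ℝ) * c ^ D.card else 0) =
        C ^ s * (r : ℝ) ^ (1 / 2 : ℝ) * (1 + c) ^ q.primeFactors.card := by
      rw [← prod_const (1 + c), prod_one_add, mul_sum]
      refine sum_congr rfl fun D hD => ?_
      rw [if_pos, prod_const]
      rw [← hqr]
      refine Nat.mul_dvd_mul_left _ ?_
      conv_rhs => rw [← Nat.prod_primeFactors_of_squarefree hq]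
      exact prod_dvd_prod_of_subset _ _ _ (mem_powerset.1 hD)
    rw [h1]
    have h2 : (m.divisors.card : ℝ) ≤
        C * ((r ^ 2 : ℕ) : ℝ) ^ (1 / (4 * s)) * 2 ^ q.primeFactors.card := by
      have h3 := tau_mul_le (r ^ 2) q
      rw [hqr, tau_sqf hq] at h3
      have h4 : (m.divisors.card : ℝ) ≤ ((r ^ 2).divisors.card : ℝ) * 2 ^ q.primeFactors.card := by
        exact_mod_cast h3
      exact h4.trans (mul_le_mul_of_nonneg_right (hC _) (by positivity))
    refine (Real.rpow_le_rpow (by positivity) h2 hs0.le).trans (le_of_eq ?_)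
    rw [Real.mul_rpow (by positivity) (by positivity), Real.mul_rpow (by positivity) (by positivity)]
    congr 1
    · congr 1
      rw [← Real.rpow_mul (by positivity), Nat.cast_pow, ← Real.rpow_natCast,
        ← Real.rpow_mul (by positivity)]
      congr 1
      push_cast
      field_simp
      norm_num
    · rw [show 1 + c = (2 : ℝ) ^ s by rw [hc]; ring, ← Real.rpow_natCast, ← Real.rpow_natCast,
        ← Real.rpow_mul (by norm_num), ← Real.rpow_mul (by norm_num), mul_comm]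
  refine (sum_le_sum key).trans ?_
  rw [sum_comm]
  have h1 : ∀ r ∈ Ioc 0 x, ∑ m ∈ Ioc 0 x, ∑ D ∈ (PP 0 x).powerset,
      (if r ^ 2 * ∏ p ∈ D, p ∣ m then C ^ s * (r : ℝ) ^ (1 / 2 : ℝ) * c ^ D.card else 0) ≤
      C ^ s * x * (15 * Real.log x) ^ c * (r : ℝ) ^ (-(3 / 2) : ℝ) := by
    intro r hr
    have hr0 : (0 : ℝ) < r := by exact_mod_cast (mem_Ioc.1 hr).1
    rw [sum_comm]
    have h2 : ∀ D ∈ (PP 0 x).powerset, ∑ m ∈ Ioc 0 x,
        (if r ^ 2 * ∏ p ∈ D, p ∣ m then C ^ s * (r : ℝ) ^ (1 / 2 : ℝ) * c ^ D.card else 0) ≤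
        C ^ s * x * (r : ℝ) ^ (-(3 / 2) : ℝ) * (c ^ D.card / ((∏ p ∈ D, p : ℕ) : ℝ)) := by
      intro D hD
      rw [← sum_filter, sum_const, Nat.Ioc_filter_dvd_card_eq_div, nsmul_eq_mul]
      have h3 : (0 : ℝ) < ((∏ p ∈ D, p : ℕ) : ℝ) := by
        have : 0 < ∏ p ∈ D, p :=
          prod_pos fun p hp => ((mem_PP _ _ _).1 (mem_powerset.1 hD hp)).2.pos
        exact_mod_cast this
      refine (mul_le_mul_of_nonneg_right Nat.cast_div_le (by positivity)).trans (le_of_eq ?_)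
      have h4 : (r : ℝ) ^ (1 / 2 : ℝ) = (r : ℝ) ^ (-(3 / 2) : ℝ) * (r : ℝ) ^ 2 := by
        rw [← Real.rpow_natCast, ← Real.rpow_add hr0]; norm_num
      rw [h4, Nat.cast_mul, Nat.cast_pow]
      field_simp
    refine (sum_le_sum h2).trans ?_
    rw [← mul_sum]
    refine (mul_le_mul_of_nonneg_left (prod_euler x hx c hc1) (by positivity)).trans (le_of_eq ?_)
    ring
  refine (sum_le_sum h1).trans ?_
  rw [← mul_sum]
  have h2 : ∑ r ∈ Ioc 0 x, (r : ℝ) ^ (-(3 / 2) : ℝ) ≤ S + 1 :=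
    (hsum.sum_le_tsum _ fun r _ => by positivity).trans (by linarith)
  have h3 : 0 ≤ (15 * Real.log x) ^ c :=
    Real.rpow_nonneg (mul_nonneg (by norm_num) (Real.log_natCast_nonneg x)) _
  refine (mul_le_mul_of_nonneg_left h2 (by positivity)).trans (le_of_eq ?_)
  ring

open scoped Classical in
/-- a violation at some shift is charged to the integer with many divisors -/
theorem bad_le (x : ℕ) (T s : ℝ) (hT : 0 < T) (hs : 1 ≤ s) :
    (((range (x + 1)).filter fun n : ℕ => ∃ k : ℕ, 1 ≤ k ∧ k < n ∧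
      (k : ℝ) + T < ((n - k).divisors.card : ℝ)).card : ℝ) ≤
      T ^ (1 - s) * ∑ m ∈ Ioc 0 x, (m.divisors.card : ℝ) ^ s := by
  have h1 : ((range (x + 1)).filter fun n : ℕ => ∃ k : ℕ, 1 ≤ k ∧ k < n ∧
      (k : ℝ) + T < ((n - k).divisors.card : ℝ)) ⊆
      ((Ioc 0 x).filter fun m : ℕ => T < (m.divisors.card : ℝ)).biUnion
        fun m : ℕ => Ioc m (m + m.divisors.card) := by
    intro n hn
    obtain ⟨h2, k, h3, h4, h5⟩ := mem_filter.1 hn
    rw [mem_range] at h2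
    have h6 : (0 : ℝ) ≤ k := by positivity
    have h7 : k < (n - k).divisors.card := by
      have : (k : ℝ) < ((n - k).divisors.card : ℝ) := by linarith
      exact_mod_cast this
    exact mem_biUnion.2 ⟨n - k, mem_filter.2 ⟨mem_Ioc.2 ⟨by omega, by omega⟩, by linarith⟩,
      mem_Ioc.2 ⟨by omega, by omega⟩⟩
  have h2 := (card_le_card h1).trans card_biUnion_le
  refine le_trans (Nat.cast_le.2 h2) ?_
  push_cast
  rw [mul_sum, sum_filter]
  refine sum_le_sum fun m _ => ?_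
  split_ifs with h
  · rw [Nat.card_Ioc, add_tsub_cancel_left]
    set t : ℝ := (m.divisors.card : ℝ)
    have ht : 0 < t := by linarith
    have h3 : t ^ (1 - s) ≤ T ^ (1 - s) := Real.rpow_le_rpow_of_nonpos hT h.le (by linarith)
    calc t = t ^ (1 - s) * t ^ s := by rw [← Real.rpow_add ht]; simp
      _ ≤ _ := mul_le_mul_of_nonneg_right h3 (by positivity)
  · positivity

end Pool.Agent.MP_cebb75_nt.N
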