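import Pool.Agent.MP_cebb75_nt.N.Core
import Pool.Agent.MP_cebb75_nt.N.Upper

/-!
The two tails.
-/

set_option autoImplicit false

open Finset Filter Topology

noncomputable section

namespace Pool.Agent.MP_cebb75_nt.N

theorem tendsto_ll : Tendsto (fun x : ℕ => Real.log (Real.log x)) atTop atTop :=
  Real.tendsto_log_atTop.comp (Real.tendsto_log_atTop.comp tendsto_natCast_atTop_atTop)

theorem ev_poly (C δ : ℝ) (hδ : 0 < δ) : ∀ᶠ l : ℝ in atTop, C * l ^ 2 ≤ Real.exp (δ * l) := by
  filter_upwards [eventually_ge_atTop (6 * |C| / δ ^ 3), eventually_ge_atTop 0] with l h1 h2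
  have h3 := Real.pow_div_factorial_le_exp (δ * l) (by positivity) 3
  norm_num [Nat.factorial] at h3
  rw [div_le_iff₀ (by positivity)] at h1
  have h4 := mul_le_mul_of_nonneg_right h1 (sq_nonneg l)
  have h5 := mul_le_mul_of_nonneg_right (le_abs_self C) (sq_nonneg l)
  nlinarith

/-- lower tail -/
theorem lower (lam : ℝ) (h2 : 2 < lam) (h : 1 < lam * Real.log (2 * Real.exp 1 / lam)) :
    ∃ γ : ℝ, 0 < γ ∧ ∀ᶠ x : ℕ in atTop,
      ({n : ℕ | n ≤ x ∧ ∀ k : ℕ, 1 ≤ k → k < n →
        ((n - k).divisors.card : ℝ) ≤ k + Real.log x ^ (lam * Real.log 2)}.ncard : ℝ) ≤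
        x * Real.exp (-(Real.log x ^ γ)) := by
  have hc : ContinuousAt (fun t : ℝ => lam * Real.log (2 * Real.exp 1 * t ^ 2 / lam)) 1 := by
    refine continuousAt_const.mul (ContinuousAt.log (by fun_prop) ?_)
    have := Real.exp_pos 1
    positivity
  have hev : ∀ᶠ t in 𝓝 (1 : ℝ), 1 < lam * Real.log (2 * Real.exp 1 * t ^ 2 / lam) :=
    hc.eventually (lt_mem_nhds (by simpa using h))
  obtain ⟨t, ⟨ht, ht0⟩, ht1⟩ := (((hev.and (lt_mem_nhds (show (0 : ℝ) < 1 by norm_num))).filter_mono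
    (nhdsWithin_le_nhds (s := Set.Iio 1))).and self_mem_nhdsWithin).exists
  replace ht1 : t < 1 := ht1
  set G := Real.log (2 * Real.exp 1 * t ^ 2 / lam) with hG
  have hG0 : 0 < G := by
    by_contra hh
    push Not at hh
    nlinarith
  set γ := min ((lam * G - 1) / 2) ((1 - t) / 2) with hγ
  have hγ1 : γ ≤ (lam * G - 1) / 2 := min_le_left _ _
  have hγ2 : γ ≤ (1 - t) / 2 := min_le_right _ _
  have hγ0 : 0 < γ := lt_min (by linarith) (by linarith)
  refine ⟨γ, hγ0, ?_⟩
  have hX : Tendsto (fun x : ℕ => Real.log x) atTop atTop :=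
    Real.tendsto_log_atTop.comp tendsto_natCast_atTop_atTop
  filter_upwards [hX.eventually_gt_atTop 0, tendsto_ll.eventually_ge_atTop 50,
    tendsto_ll.eventually_ge_atTop (2 * t / (lam * (1 - t))),
    tendsto_ll.eventually (ev_poly 22 γ hγ0),
    tendsto_ll.eventually (ev_poly (220 * (lam + 1)) γ hγ0),
    tendsto_ll.eventually (ev_poly (240000 * (lam + 1) ^ 2) γ hγ0)] with x hX0 hl1 hl2 hl3 hl4 hl5
  set X := Real.log x with hXd
  set l := Real.log X with hld
  have hXl : X = Real.exp l := (Real.exp_log hX0).symm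
  have hpow : ∀ a : ℝ, X ^ a = Real.exp (a * l) := fun a => by
    rw [Real.rpow_def_of_pos hX0, mul_comm]
  set J := ⌊lam * l⌋₊ + 2 with hJ
  have hll : 100 ≤ lam * l := by nlinarith
  have hJ1 : lam * l + 1 < J := by
    have := Nat.lt_floor_add_one (lam * l)
    rw [hJ]; push_cast; linarith
  have hJ2 : (J : ℝ) ≤ lam * l + 2 := by
    have := Nat.floor_le (show 0 ≤ lam * l by linarith)
    rw [hJ]; push_cast; linarith
  have hJR : (100 : ℝ) ≤ J := by linarith
  have hJ100 : 100 ≤ J := by exact_mod_cast hJR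
  have hJ3 : (J : ℝ) ≤ (lam + 1) * l := by linarith
  have hJ4 : t * J ≤ lam * l := by
    rw [div_le_iff₀ (by nlinarith)] at hl2
    nlinarith
  have hcore := core' J x hJ100 (t * l) (by positivity) (by nlinarith) (2 * Real.exp (γ * l))
    (by nlinarith) ?_ ?_ (fun n : ℕ => ∀ k : ℕ, 1 ≤ k → k < n →
        ((n - k).divisors.card : ℝ) ≤ k + X ^ (lam * Real.log 2)) ?_
  · rw [hpow γ]
    refine hcore.trans (le_of_eq ?_)
    congr 3
    ring
  · have h3 : Real.exp G ≤ 2 * Real.exp 1 * (t * l) / J := by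
      rw [hG, Real.exp_log (by have := Real.exp_pos 1; positivity),
        div_le_div_iff₀ (by linarith) (by linarith)]
      have := mul_le_mul_of_nonneg_left hJ4 (show 0 ≤ 2 * Real.exp 1 * t by positivity)
      nlinarith
    have h4 : Real.exp (lam * l * G) ≤ (2 * Real.exp 1 * (t * l) / J) ^ J := by
      refine le_trans ?_ (pow_le_pow_left₀ (Real.exp_pos _).le h3 J)
      rw [← Real.exp_nat_mul, Real.exp_le_exp]
      nlinarith
    have h5 : Real.sqrt J ≤ (lam + 1) * l ^ 2 := by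
      refine Real.sqrt_le_iff.2 ⟨by positivity, ?_⟩
      have h6 : (J : ℝ) ≤ (lam + 1) * l ^ 2 := by nlinarith
      nlinarith
    have hs0 : 0 < Real.sqrt J := Real.sqrt_pos.2 (by linarith)
    rw [le_div_iff₀ (by positivity)]
    calc 2 * Real.exp (γ * l) * (110 * Real.sqrt J)
        ≤ 2 * Real.exp (γ * l) * (110 * ((lam + 1) * l ^ 2)) := by gcongr
      _ = Real.exp (γ * l) * (220 * (lam + 1) * l ^ 2) := by ring
      _ ≤ Real.exp (γ * l) * Real.exp (γ * l) := by gcongr
      _ ≤ Real.exp (lam * l * G) * Real.exp (-(t * l)) := by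
          rw [← Real.exp_add, ← Real.exp_add, Real.exp_le_exp]
          nlinarith
      _ ≤ _ := by gcongr
  · rw [← hXd]
    calc 120000 * (2 * Real.exp (γ * l) * ((J : ℝ) ^ 2 * Real.exp (t * l)))
        ≤ 120000 * (2 * Real.exp (γ * l) * (((lam + 1) * l) ^ 2 * Real.exp (t * l))) := by gcongr
      _ = 240000 * (lam + 1) ^ 2 * l ^ 2 * (Real.exp (γ * l) * Real.exp (t * l)) := by ring
      _ ≤ Real.exp (γ * l) * (Real.exp (γ * l) * Real.exp (t * l)) := by gcongr
      _ ≤ X := by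
          rw [← Real.exp_add, ← Real.exp_add, hXl, Real.exp_le_exp]
          nlinarith
  · intro n k hn h3 h4 h5
    have h6 := hn k h3 h5
    have h7 : X ^ (lam * Real.log 2) < 2 ^ (J - 1) := by
      have h8 : (2 : ℝ) ^ (J - 1) = Real.exp ((J - 1 : ℕ) * Real.log 2) := by
        rw [Real.exp_nat_mul, Real.exp_log two_pos]
      rw [hpow, h8, Real.exp_lt_exp, Nat.cast_sub (by omega)]
      push_cast
      nlinarith [Real.log_two_gt_d9]
    have h8 : (k : ℝ) ≤ 2 ^ (J - 1) := by exact_mod_cast h4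
    have h9 : (2 : ℝ) ^ J = 2 * 2 ^ (J - 1) := by rw [← pow_succ']; congr 1
    have h10 : ((n - k).divisors.card : ℝ) < 2 ^ J := by linarith
    exact_mod_cast h10

/-- upper tail -/
theorem upper (lam : ℝ) (h2 : 2 < lam) (h : lam * Real.log (2 * Real.exp 1 / lam) < 1) :
    ∃ γ : ℝ, 0 < γ ∧ ∀ᶠ x : ℕ in atTop,
      ({n : ℕ | n ≤ x ∧ ∃ k : ℕ, 1 ≤ k ∧ k < n ∧
        (k : ℝ) + Real.log x ^ (lam * Real.log 2) < ((n - k).divisors.card : ℝ)}.ncard : ℝ) ≤
        x * Real.log x ^ (-γ) := by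
  have hl2 : 0 < Real.log 2 := Real.log_pos (by norm_num)
  set s := Real.log lam / Real.log 2 with hs
  have hs1 : 1 ≤ s := by
    rw [hs, le_div_iff₀ hl2, one_mul]
    exact Real.log_le_log (by norm_num) h2.le
  have hs2 : (2 : ℝ) ^ s = lam := by
    rw [Real.rpow_def_of_pos (by norm_num), hs, mul_div_cancel₀ _ hl2.ne',
      Real.exp_log (by linarith)]
  obtain ⟨C, hC0, hC⟩ := moment s hs1
  rw [hs2] at hC
  have hg : Real.log (2 * Real.exp 1 / lam) = Real.log 2 + 1 - Real.log lam := by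
    rw [Real.log_div (by positivity) (by linarith), Real.log_mul (by norm_num) (by positivity),
      Real.log_exp]
  set γ := (1 - lam * Real.log (2 * Real.exp 1 / lam)) / 2 with hγ
  have hγ0 : 0 < γ := by linarith
  refine ⟨γ, hγ0, ?_⟩
  have hX : Tendsto (fun x : ℕ => Real.log x) atTop atTop :=
    Real.tendsto_log_atTop.comp tendsto_natCast_atTop_atTop
  filter_upwards [hX.eventually_gt_atTop 0, eventually_ge_atTop 2,
    tendsto_ll.eventually_ge_atTop 1,
    tendsto_ll.eventually (ev_poly (C * 15 ^ (lam - 1)) γ hγ0)] with x hX0 hx2 hl1 hl3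
  have h3 := hC x hx2
  set X := Real.log x with hXd
  set l := Real.log X with hld
  have hpow : ∀ a : ℝ, X ^ a = Real.exp (a * l) := fun a => by
    rw [Real.rpow_def_of_pos hX0, mul_comm]
  have hT : 0 < X ^ (lam * Real.log 2) := Real.rpow_pos_of_pos hX0 _
  classical
  rw [ncard_eq]
  refine le_trans (by convert bad_le x _ s hT hs1) ((mul_le_mul_of_nonneg_left h3 (Real.rpow_nonneg hT.le (1 - s))).trans ?_)
  rw [← Real.rpow_mul hX0.le, Real.mul_rpow (by norm_num) hX0.le, hpow, hpow, hpow]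
  have h4 : C * 15 ^ (lam - 1) ≤ Real.exp (γ * l) := by
    refine le_trans ?_ hl3
    exact le_mul_of_one_le_right (by positivity) (by nlinarith)
  have h5 : lam * Real.log 2 * (1 - s) = lam * (Real.log 2 - Real.log lam) := by
    rw [hs]; field_simp
  calc _ = x * (C * 15 ^ (lam - 1) * (Real.exp (lam * Real.log 2 * (1 - s) * l) *
          Real.exp ((lam - 1) * l))) := by ring
    _ ≤ x * (Real.exp (γ * l) * (Real.exp (lam * Real.log 2 * (1 - s) * l) *
          Real.exp ((lam - 1) * l))) := by gcongr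
    _ = _ := by
        rw [← Real.exp_add, ← Real.exp_add, h5, hγ, hg]
        congr 2
        ring

end Pool.Agent.MP_cebb75_nt.N
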